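import Pool.Agent.Y303.EJ.Stm
import Pool.Agent.Y317.SK.Int

/-!
# Project EJ: S_INTE
-/

open Set Filter Topology MeasureTheory Metric

set_option autoImplicit false

namespace Pool.Agent.Y419.EJ

open Pool.Agent.Y5 (E3)
open Pool.Agent.Y303.SK
open Pool.Agent.Y303.EJ
open Pool.Agent.Y317.SK hiding main

theorem t_INTE (hm : S_MME) (_hf : S_FORM) : S_INTE := by
  intro p Ψ H a κ h q q' G δ η r α ε lm L hPk hPar m f f' s θ s' θ' hf hf' hLf hLf'
  obtain ⟨hm1, _, _, _, _⟩ := hm p Ψ H a κ h q q' G δ η r α ε lm L hPk hPar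
  have hR : 0 < r m := hPar.r0 m
  have hR' : 0 < r (m + 1) := hPar.r0 (m + 1)
  have hst : r (m + 1) ≤ q' * r m := hPar.rstep m
  have hq0 : 0 < q' := hPk.q'0
  have hqq : q' < q := hPk.qq
  have hq1 : q < 1 := hPk.q1
  have hq' : 0 < q := hq0.trans hqq
  have hHu : CS univ H := csu hPk.Hcs
  have hΨu : CS univ Ψ := csu hPk.Ψcs
  have hK : CS univ (sc p (r m) H) := sc_cs p hR hHu
  have hP : CS univ (sc p (r m) Ψ) := sc_cs p hR hΨu
  have hK' : CS univ (sc p (r (m + 1)) H) := sc_cs p hR' hHu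
  have hψ : CS univ (psi p Ψ H r α ε m) := csu (hm1 m)
  -- supports
  have hnr : ∀ x, ‖(r m)⁻¹ • (x - p)‖ = (r m)⁻¹ * dist x p := by
    intro x
    rw [norm_smul, Real.norm_eq_abs, abs_of_pos (inv_pos.2 hR), dist_eq_norm]
  have hnr' : ∀ x, ‖(r (m + 1))⁻¹ • (x - p)‖ = (r (m + 1))⁻¹ * dist x p := by
    intro x
    rw [norm_smul, Real.norm_eq_abs, abs_of_pos (inv_pos.2 hR'), dist_eq_norm]
  let U : Set E3 := ball p (q * r m) \ closedBall p (q' * r m)
  have hUo : IsOpen U := isOpen_ball.sdiff isClosed_closedBall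
  have hUb : U ⊆ ball p (r m) := fun x hx => by
    have h1 : dist x p < q * r m := hx.1
    exact mem_ball.2 (by nlinarith)
  have hH0 : ∀ y, y ∉ ball (0 : E3) q \ closedBall 0 q' → H y = 0 ∧ fderiv ℝ H y = 0 := by
    intro y hy
    have h1 : y ∉ tsupport H := fun h => hy (hPk.Hcs.supp h)
    exact ⟨cs0 h1, cs0f h1⟩
  have hK0 : ∀ x, x ∉ U → sc p (r m) H x = 0 ∧ fderiv ℝ (sc p (r m) H) x = 0 := by
    intro x hx
    have h1 : (r m)⁻¹ • (x - p) ∉ ball (0 : E3) q \ closedBall 0 q' := by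
      rintro ⟨h2, h3⟩
      rw [mem_ball_zero_iff, hnr] at h2
      rw [mem_closedBall_zero_iff, hnr, not_le] at h3
      refine hx ⟨?_, ?_⟩
      · rw [mem_ball]
        rw [inv_mul_lt_iff₀ hR] at h2
        linarith
      · rw [mem_closedBall, not_le]
        rw [lt_inv_mul_iff₀ hR] at h3
        linarith
    obtain ⟨h2, h3⟩ := hH0 _ h1
    constructor
    · unfold sc
      rw [h2, smul_zero]
    · have h4 := (sc_hd p (r := r m) (csd hHu) x).fderiv
      rw [h3] at h4
      refine h4.trans ?_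
      refine ContinuousLinearMap.ext fun v => ?_
      change (r m * √(r m))⁻¹ • ((r m)⁻¹ • (0 : E3)) = 0
      rw [smul_zero, smul_zero]
  have hPlin : ∀ x ∈ ball p (q * r m), sc p (r m) Ψ x =
      ((r m * √(r m))⁻¹ * (a * (r m)⁻¹)) • lin p x := by
    intro x hx
    unfold sc lin
    rw [hPk.Ψlin _ (by rw [mem_ball_zero_iff, hnr, inv_mul_lt_iff₀ hR]; rw [mem_ball] at hx; linarith),
      map_smul, smul_smul, smul_smul, mul_assoc]
  have hK'0 : ∀ x, x ∉ ball p (q * r (m + 1)) → sc p (r (m + 1)) H x = 0 := by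
    intro x hx
    unfold sc
    rw [(hH0 _ _).1, smul_zero]
    rintro ⟨h2, _⟩
    rw [mem_ball_zero_iff, hnr', inv_mul_lt_iff₀ hR'] at h2
    exact hx (mem_ball.2 (by linarith))
  have hA : α m * ((r m * √(r m))⁻¹ * (a * (r m)⁻¹)) = Am a r α m := by
    unfold Am
    have h1 : √(r m) ≠ 0 := (Real.sqrt_pos.2 hR).ne'
    field_simp
  have hψU : ∀ x ∈ U, psi p Ψ H r α ε m x = Am a r α m • lin p x := by
    intro x hx
    unfold psi
    have h1 : x ∉ ball p (q * r (m + 1)) := by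
      intro h
      have h2 : dist x p < q * r (m + 1) := h
      have h3 : q' * r m < dist x p := not_le.1 fun h4 => hx.2 (mem_closedBall.2 h4)
      nlinarith
    rw [hPlin x hx.1, hK'0 x h1, smul_zero, add_zero, smul_smul, hA]
  have hψU' : ∀ x ∈ U, fderiv ℝ (psi p Ψ H r α ε m) x = Am a r α m • Sm := by
    intro x hx
    have h1 : psi p Ψ H r α ε m =ᶠ[𝓝 x] fun y => Am a r α m • lin p y := by
      filter_upwards [hUo.mem_nhds hx] with y hy using hψU y hy
    rw [h1.fderiv_eq]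
    have h2 : HasFDerivAt (fun y => Am a r α m • lin p y) (Am a r α m • Sm) x :=
      (lin_hd p x).const_smul (Am a r α m)
    exact h2.fderiv
  have hψ0 : ∀ x, x ∉ ball p (r m) → psi p Ψ H r α ε m x = 0 ∧
      fderiv ℝ (psi p Ψ H r α ε m) x = 0 := by
    intro x hx
    have h1 : x ∉ tsupport (psi p Ψ H r α ε m) := fun h2 => hx ((hm1 m).supp h2)
    exact ⟨cs0 h1, cs0f h1⟩
  have hL : Loc p (r m) (Am a r α m) U (sc p (r m) H) (psi p Ψ H r α ε m) :=
    ⟨hK, hψ, hUb, hK0, fun x hx => ⟨hψU x hx, hψU' x hx⟩, hψ0⟩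
  obtain ⟨r1, r2, r3, r4, r5⟩ := Pool.Agent.Y317.SK.main hL hLf hLf'
  refine ⟨r1, r2, ?_, r4, ?_⟩
  · rw [r3, sc_int p hR, hPk.Hh]
    ring
  · rw [r5]
    have hψc := csc hψ
    have hPc := csc hP
    have hKc' := csc hK'
    have hlc := lin_c p
    have i1 : Integrable (fun x => inner ℝ (Sm (sc p (r m) Ψ x)) (sc p (r m) Ψ x)) :=
      intg (K := tsupport (sc p (r m) Ψ)) (by fun_prop) hP.cpt fun x hx => by rw [cs0 hx]; simp
    have i2 : Integrable (fun x => inner ℝ (Sm (sc p (r (m + 1)) H x)) (sc p (r (m + 1)) H x)) :=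
      intg (K := tsupport (sc p (r (m + 1)) H)) (by fun_prop) hK'.cpt
        fun x hx => by rw [cs0 hx]; simp
    have i3 : Integrable (fun x => inner ℝ (Sm (lin p x)) (sc p (r (m + 1)) H x)) :=
      intg (K := tsupport (sc p (r (m + 1)) H)) (by fun_prop) hK'.cpt
        fun x hx => by rw [cs0 hx]; simp
    have h1 : ∀ x, inner ℝ (Sm (psi p Ψ H r α ε m x)) (psi p Ψ H r α ε m x) =
        α m ^ 2 * inner ℝ (Sm (sc p (r m) Ψ x)) (sc p (r m) Ψ x) +
        ε m ^ 2 * inner ℝ (Sm (sc p (r (m + 1)) H x)) (sc p (r (m + 1)) H x) +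
        (2 * α m * ε m * ((r m * √(r m))⁻¹ * (a * (r m)⁻¹))) *
          inner ℝ (Sm (lin p x)) (sc p (r (m + 1)) H x) := by
      intro x
      unfold psi
      have e1 : inner ℝ (Sm (sc p (r m) Ψ x)) (sc p (r (m + 1)) H x) =
          ((r m * √(r m))⁻¹ * (a * (r m)⁻¹)) *
            inner ℝ (Sm (lin p x)) (sc p (r (m + 1)) H x) := by
        by_cases hx : x ∈ ball p (q * r (m + 1))
        · rw [hPlin x, map_smul, real_inner_smul_left]
          rw [mem_ball] at hx ⊢
          nlinarith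
        · rw [hK'0 x hx]
          simp
      have e2 : inner ℝ (Sm (sc p (r (m + 1)) H x)) (sc p (r m) Ψ x) =
          inner ℝ (Sm (sc p (r m) Ψ x)) (sc p (r (m + 1)) H x) := by
        rw [Sm_symm, real_inner_comm]
      simp only [map_add, map_smul, inner_add_left, inner_add_right, real_inner_smul_left,
        real_inner_smul_right, e2, e1]
      ring
    simp only [h1]
    rw [int3 i1 i2 i3, sc_int p hR, sc_int p hR', hPk.Ψk, hPk.Hh,
      lin_orth2 p hK']
    ring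

end Pool.Agent.Y419.EJ
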